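import Mathlib

/-!
# Project XD: fields inside the complex numbers come from cyclotomic fields
-/

set_option autoImplicit false

open NumberField IsCyclotomicExtension.Rat

namespace Pool.Agent.Y279.XD

/-- the square root of `q*` -/
lemma gauss_q {L : Type} [Field L] [CharZero L] {q : ℕ} (hq : q.Prime) (hq2 : q ≠ 2) {ζ : L}
    (hζ : IsPrimitiveRoot ζ q) : ∃ g : L, g ^ 2 = (((-1 : ℤ) ^ (q / 2) * q : ℤ) : L) := by
  classical
  have : Fact q.Prime := ⟨hq⟩
  have : NeZero q := ⟨hq.ne_zero⟩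
  have hchar : ringChar (ZMod q) ≠ 2 := by
    rw [ZMod.ringChar_zmod_n]
    exact hq2
  set χ : MulChar (ZMod q) L := (quadraticChar (ZMod q)).ringHomComp (Int.castRingHom L) with hχ
  have hχ1 : χ ≠ 1 := by
    intro h
    obtain ⟨a, ha⟩ := quadraticChar_exists_neg_one' hchar
    have h1 := DFunLike.congr_fun h (a : ZMod q)
    rw [hχ, MulChar.ringHomComp_apply, ha, MulChar.one_apply a.isUnit] at h1
    have h2 : ((-1 : ℤ) : L) = 1 := h1
    have h3 : (-1 : ℤ) = 1 := by exact_mod_cast h2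
    omega
  have hχ2 : χ.IsQuadratic := (quadraticChar_isQuadratic (ZMod q)).comp _
  set ψ := AddChar.zmodChar q hζ.pow_eq_one with hψ
  have h := gaussSum_sq hχ1 hχ2 (AddChar.zmodChar_primitive_of_primitive_root q hζ)
  refine ⟨gaussSum χ ψ, h.trans ?_⟩
  rw [ZMod.card]
  have hodd : q % 2 = 1 := hq.eq_two_or_odd.resolve_left hq2
  have h1 : χ (-1) = (((-1 : ℤ) ^ (q / 2) : ℤ) : L) := by
    rw [hχ, MulChar.ringHomComp_apply, quadraticChar_neg_one hchar, ZMod.card,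
      ZMod.χ₄_eq_neg_one_pow hodd]
    rfl
  rw [h1]
  push_cast
  rfl

lemma star_mod {q : ℕ} (hq : q % 2 = 1) : ((-1 : ℤ) ^ (q / 2) * q) % 4 = 1 := by
  have h1 : q % 4 = 1 ∨ q % 4 = 3 := by omega
  rcases h1 with h1 | h1
  · have : Even (q / 2) := by rw [Nat.even_iff]; omega
    rw [this.neg_one_pow]
    omega
  · have : Odd (q / 2) := by rw [Nat.odd_iff]; omega
    rw [this.neg_one_pow]
    omega

lemma prod_mod (T : Finset ℕ) (f : ℕ → ℤ) (h : ∀ q ∈ T, f q % 4 = 1) : (∏ q ∈ T, f q) % 4 = 1 := by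
  classical
  induction T using Finset.induction_on with
  | empty => simp
  | insert a s ha ih =>
    rw [Finset.prod_insert ha, Int.mul_emod, h a (Finset.mem_insert_self _ _),
      ih fun q hq => h q (Finset.mem_insert_of_mem hq)]
    rfl

/-- the square roots of the odd squarefree numbers `1` modulo `4` -/
lemma sqrt_mem (N : ℕ) [NeZero N] (L : Type) [Field L] [NumberField L]
    [IsCyclotomicExtension {N} ℚ L] (d : ℕ) (hd : d ∣ N) (h4 : d % 4 = 1) (hsq : Squarefree d) :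
    ∃ g : L, g ^ 2 = (d : L) := by
  classical
  have hζ := IsCyclotomicExtension.zeta_spec N ℚ L
  have h1 : ∀ q : ℕ, ∃ g : L, q ∈ d.primeFactors → g ^ 2 = (((-1 : ℤ) ^ (q / 2) * q : ℤ) : L) := by
    intro q
    by_cases hq : q ∈ d.primeFactors
    · have hqp := Nat.prime_of_mem_primeFactors hq
      have hqd := Nat.dvd_of_mem_primeFactors hq
      have hq2 : q ≠ 2 := by
        rintro rfl
        omega
      obtain ⟨m, hm⟩ := hqd.trans hd
      have hζq := hζ.pow (NeZero.pos N) (show N = m * q by rw [hm, mul_comm])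
      obtain ⟨g, hg⟩ := gauss_q hqp hq2 hζq
      exact ⟨g, fun _ => hg⟩
    · exact ⟨0, fun h => absurd h hq⟩
  choose g hg using h1
  refine ⟨∏ q ∈ d.primeFactors, g q, ?_⟩
  have e1 : (∏ q ∈ d.primeFactors, g q) ^ 2 =
      ((∏ q ∈ d.primeFactors, ((-1 : ℤ) ^ (q / 2) * q) : ℤ) : L) := by
    rw [← Finset.prod_pow]
    push_cast
    refine Finset.prod_congr rfl fun q hq => ?_
    rw [hg q hq]
    push_cast
    rfl
  have e2 : (∏ q ∈ d.primeFactors, ((-1 : ℤ) ^ (q / 2) * q) : ℤ) = d := by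
    have hodd : ∀ q ∈ d.primeFactors, q % 2 = 1 := by
      intro q hq
      refine (Nat.prime_of_mem_primeFactors hq).eq_two_or_odd.resolve_left ?_
      rintro rfl
      have := Nat.dvd_of_mem_primeFactors hq
      omega
    have a1 := prod_mod d.primeFactors (fun q => (-1 : ℤ) ^ (q / 2) * q)
      fun q hq => star_mod (hodd q hq)
    have a2 : (∏ q ∈ d.primeFactors, ((-1 : ℤ) ^ (q / 2) * q) : ℤ) =
        (∏ q ∈ d.primeFactors, (-1 : ℤ) ^ (q / 2)) * d := by
      rw [Finset.prod_mul_distrib]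
      congr 1
      have := Nat.prod_primeFactors_of_squarefree hsq
      rw [← Nat.cast_prod, this]
    have a3 : (∏ q ∈ d.primeFactors, (-1 : ℤ) ^ (q / 2)) = 1 ∨
        (∏ q ∈ d.primeFactors, (-1 : ℤ) ^ (q / 2)) = -1 := by
      rw [Finset.prod_pow_eq_pow_sum]
      exact neg_one_pow_eq_or ℤ _
    rcases a3 with a3 | a3
    · rw [a2, a3, one_mul]
    · exfalso
      rw [a2, a3] at a1
      omega
  rw [e1, e2]
  push_cast
  rfl

/-- complex conjugation is `σ_{-1}` -/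
lemma conj_zeta (N : ℕ) [NeZero N] (L : Type) [Field L] [NumberField L]
    [IsCyclotomicExtension {N} ℚ L] (φ : L →ₐ[ℚ] ℂ) (y : L) :
    φ ((galEquivZMod N L).symm (-1) y) = (starRingEnd ℂ) (φ y) := by
  have hζ := IsCyclotomicExtension.zeta_spec N ℚ L
  set σ := (galEquivZMod N L).symm (-1) with hσ
  let f : L →ₐ[ℚ] ℂ := φ.comp (σ : L →ₐ[ℚ] L)
  let g : L →ₐ[ℚ] ℂ := ((starRingEnd ℂ : ℂ →+* ℂ).toRatAlgHom).comp φ
  have h : f = g := by
    apply (hζ.powerBasis ℚ).algHom_ext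
    rw [IsPrimitiveRoot.powerBasis_gen]
    set ζ := IsCyclotomicExtension.zeta N ℚ L
    change φ (σ ζ) = (starRingEnd ℂ) (φ ζ)
    have hzn : φ ζ ^ N = 1 := by rw [← map_pow, hζ.pow_eq_one, map_one]
    have hz0 : φ ζ ≠ 0 := by
      intro h
      rw [h, zero_pow (NeZero.ne N)] at hzn
      exact zero_ne_one hzn
    have e1 : σ ζ = ζ ^ ((-1 : (ZMod N)ˣ) : ZMod N).val := by
      rw [galEquivZMod_apply_of_pow_eq N L σ hζ.pow_eq_one, hσ, MulEquiv.apply_symm_apply]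
    have e2 : φ ζ ^ ((-1 : (ZMod N)ˣ) : ZMod N).val * φ ζ = 1 := by
      rw [← pow_succ]
      have h7 : N ∣ ((-1 : (ZMod N)ˣ) : ZMod N).val + 1 := by
        rw [← ZMod.natCast_eq_zero_iff]
        push_cast
        rw [ZMod.natCast_zmod_val]
        ring
      obtain ⟨t, ht⟩ := h7
      rw [ht, pow_mul, hzn, one_pow]
    have e3 : (starRingEnd ℂ) (φ ζ) * φ ζ = 1 := by
      rw [mul_comm, Complex.mul_conj, Complex.normSq_eq_norm_sq]
      have : ‖φ ζ‖ = 1 := Complex.norm_eq_one_of_pow_eq_one hzn (NeZero.ne N)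
      rw [this]; simp
    rw [e1, map_pow]
    exact mul_right_cancel₀ hz0 (e2.trans e3.symm)
  exact congrArg (fun h : L →ₐ[ℚ] ℂ => h y) h

theorem emb (q N : ℕ) [NeZero q] [NeZero N] (hqN : q ∣ N) (L₁ L : Type) [Field L₁]
    [NumberField L₁] [IsCyclotomicExtension {q} ℚ L₁] [Field L] [NumberField L]
    [IsCyclotomicExtension {N} ℚ L] (K F₀ : IntermediateField ℚ ℂ)
    (hK : K ≤ IntermediateField.adjoin ℚ {z : ℂ | z ^ q = 1}) (S : Set ℕ)
    (hS : ∀ d ∈ S, d ∣ N ∧ d % 4 = 1 ∧ Squarefree d)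
    (hF : F₀ = IntermediateField.adjoin ℚ {z : ℂ | ∃ d ∈ S, z ^ 2 = (d : ℂ)}) :
    ∃ (φ : L →ₐ[ℚ] ℂ) (ι : L₁ →ₐ[ℚ] L) (K₁ : IntermediateField ℚ L₁) (F₁ : IntermediateField ℚ L),
      K₁.map (φ.comp ι) = K ∧ F₁.map φ = F₀ ∧ (∀ σ : Gal(L/ℚ), ∀ x ∈ F₁, σ (σ x) = x) ∧
      ∀ x ∈ F₁, (galEquivZMod N L).symm (-1) x = x := by
  classical
  let φ : L →ₐ[ℚ] ℂ := IsAlgClosed.lift
  have hζ₁ := IsCyclotomicExtension.zeta_spec q ℚ L₁
  have hζ := IsCyclotomicExtension.zeta_spec N ℚ L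
  obtain ⟨m, hm⟩ := hqN
  have hζq := hζ.pow (NeZero.pos N) (show N = m * q by rw [hm, mul_comm])
  let ι : L₁ →ₐ[ℚ] L := (hζ₁.powerBasis ℚ).lift (IsCyclotomicExtension.zeta N ℚ L ^ m) (by
    rw [IsPrimitiveRoot.powerBasis_gen, ← Polynomial.cyclotomic_eq_minpoly_rat hζ₁ (NeZero.pos q),
      Polynomial.aeval_def, Polynomial.eval₂_eq_eval_map, Polynomial.map_cyclotomic]
    exact hζq.isRoot_cyclotomic (NeZero.pos q))
  -- the first field
  have hKr : K ≤ (φ.comp ι).fieldRange := by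
    refine hK.trans (IntermediateField.adjoin_le_iff.2 ?_)
    intro z hz
    have hz' : z ^ q = 1 := hz
    have hp : IsPrimitiveRoot ((φ.comp ι) (IsCyclotomicExtension.zeta q ℚ L₁)) q :=
      hζ₁.map_of_injective (φ.comp ι).toRingHom.injective
    obtain ⟨i, -, hi⟩ := hp.eq_pow_of_pow_eq_one hz'
    exact ⟨IsCyclotomicExtension.zeta q ℚ L₁ ^ i, by rw [← hi]; exact map_pow _ _ _⟩
  -- the square roots
  have hroot : ∀ z : ℂ, (∃ d ∈ S, z ^ 2 = (d : ℂ)) → ∃ g : L, φ g = z ∧ ∃ d : ℕ, g ^ 2 = (d : L) := by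
    rintro z ⟨d, hd, hz⟩
    obtain ⟨h1, h2, h3⟩ := hS d hd
    obtain ⟨g, hg⟩ := sqrt_mem N L d h1 h2 h3
    have h4 : (φ g) ^ 2 = (d : ℂ) := by rw [← map_pow, hg, map_natCast]
    rcases sq_eq_sq_iff_eq_or_eq_neg.1 (hz.trans h4.symm) with h | h
    · exact ⟨g, h.symm, d, hg⟩
    · exact ⟨-g, by rw [map_neg, h], d, by rw [neg_sq, hg]⟩
  have hFr : F₀ ≤ φ.fieldRange := by
    rw [hF]
    refine IntermediateField.adjoin_le_iff.2 ?_
    intro z hz
    obtain ⟨g, hg, -⟩ := hroot z hz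
    exact ⟨g, hg⟩
  refine ⟨φ, ι, K.comap (φ.comp ι), F₀.comap φ, IntermediateField.map_comap_eq_self hKr,
    IntermediateField.map_comap_eq_self hFr, ?_, ?_⟩
  · intro σ x hx
    have hx' : φ x ∈ F₀ := hx
    let E : IntermediateField ℚ L := IntermediateField.fixedField (Subgroup.zpowers (σ * σ))
    have hE : F₀ ≤ E.map φ := by
      rw [hF]
      refine IntermediateField.adjoin_le_iff.2 ?_
      intro z hz
      obtain ⟨g, hg, d, hgd⟩ := hroot z hz
      refine ⟨g, ?_, hg⟩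
      have h1 : σ g ^ 2 = g ^ 2 := by rw [← map_pow, hgd, map_natCast]
      have h2 : σ (σ g) = g := by
        rcases sq_eq_sq_iff_eq_or_eq_neg.1 h1 with h | h
        · rw [h, h]
        · rw [h, map_neg, h, neg_neg]
      change g ∈ E
      rw [IntermediateField.mem_fixedField_iff]
      intro τ hτ
      have h3 : Subgroup.zpowers (σ * σ) ≤ MulAction.stabilizer Gal(L/ℚ) g := by
        rw [Subgroup.zpowers_le]
        exact h2
      exact h3 hτ
    obtain ⟨y, hy, hyx⟩ := hE hx'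
    have h3 : y = x := φ.toRingHom.injective hyx
    subst h3
    have hy' : y ∈ E := hy
    rw [IntermediateField.mem_fixedField_iff] at hy'
    exact hy' (σ * σ) (Subgroup.mem_zpowers _)
  · intro x hx
    have hx' : φ x ∈ F₀ := hx
    have hR : F₀ ≤ (Complex.ofRealHom.toRatAlgHom : ℝ →ₐ[ℚ] ℂ).fieldRange := by
      rw [hF]
      refine IntermediateField.adjoin_le_iff.2 ?_
      rintro z ⟨d, -, hz⟩
      have h1 : (((Real.sqrt d : ℝ) : ℂ)) ^ 2 = (d : ℂ) := by
        rw [← Complex.ofReal_pow, Real.sq_sqrt (Nat.cast_nonneg d), Complex.ofReal_natCast]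
      rcases sq_eq_sq_iff_eq_or_eq_neg.1 (hz.trans h1.symm) with h | h
      · exact ⟨Real.sqrt d, h.symm⟩
      · refine ⟨-Real.sqrt d, ?_⟩
        rw [h]
        change (((-Real.sqrt d : ℝ)) : ℂ) = _
        rw [Complex.ofReal_neg]
    obtain ⟨r, hr⟩ := hR hx'
    have hr' : (r : ℂ) = φ x := hr
    apply φ.toRingHom.injective
    change φ _ = φ x
    rw [conj_zeta, ← hr', Complex.conj_ofReal]

end Pool.Agent.Y279.XD
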